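import Mathlib

set_option autoImplicit false

namespace Pool.Agent.Results.MP_64ebd5_nt.Counterexample

/-- The `l`-th prime, `p 1 = 2`. -/
noncomputable def p (l : ℕ) : ℕ := Nat.nth Nat.Prime (l - 1)

/-- `n` is a sum of distinct divisors of `n` smaller than `n`. -/
def Pseudoperfect (n : ℕ) : Prop := 0 < n ∧ ∃ S ⊆ n.properDivisors, ∑ d ∈ S, d = n

/-- Pseudoperfect, and no proper divisor is pseudoperfect. -/
def PrimPseudoperfect (n : ℕ) : Prop := Pseudoperfect n ∧ ∀ d ∈ n.properDivisors, ¬ Pseudoperfect d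

/-- The least `j ≥ k` with `σ(p_k ⋯ p_j) ≥ 2 p_k ⋯ p_j`. -/
noncomputable def f (k : ℕ) : ℕ :=
  sInf {j | k ≤ j ∧ 2 * ∏ l ∈ Finset.Icc k j, p l ≤
    ArithmeticFunction.sigma 1 (∏ l ∈ Finset.Icc k j, p l)}

/-- `A_k`. -/
noncomputable def A (k : ℕ) : ℕ := ∏ l ∈ Finset.Icc k (f k), p l

/-- `B_k`. -/
noncomputable def B (k : ℕ) : ℕ := A k / p (f k) * p (f k + 1) * p (f k + 2)

lemma nth_eq (k q : ℕ) (hq : q.Prime) (h : Nat.count Nat.Prime q = k) : p (k + 1) = q := by
  rw [p, Nat.add_one_sub_one, ← h]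
  exact Nat.nth_count hq

/-- `B_2 = 3·5·7·11·17·19` has the pseudoperfect proper divisor `19635`. -/
theorem result : ¬ ∀ k : ℕ, 2 ≤ k → PrimPseudoperfect (A k) ∧ PrimPseudoperfect (B k) := by
  intro h
  have e2 : p 2 = 3 := nth_eq 1 3 (by norm_num) (by decide +kernel)
  have e3 : p 3 = 5 := nth_eq 2 5 (by norm_num) (by decide +kernel)
  have e4 : p 4 = 7 := nth_eq 3 7 (by norm_num) (by decide +kernel)
  have e5 : p 5 = 11 := nth_eq 4 11 (by norm_num) (by decide +kernel)
  have e6 : p 6 = 13 := nth_eq 5 13 (by norm_num) (by decide +kernel)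
  have e7 : p 7 = 17 := nth_eq 6 17 (by norm_num) (by decide +kernel)
  have e8 : p 8 = 19 := nth_eq 7 19 (by norm_num) (by decide +kernel)
  have q2 : ∏ l ∈ Finset.Icc 2 2, p l = 3 := by simp [e2]
  have q3 : ∏ l ∈ Finset.Icc 2 3, p l = 15 := by
    rw [Finset.prod_Icc_succ_top (by norm_num), q2, e3]
    norm_num
  have q4 : ∏ l ∈ Finset.Icc 2 4, p l = 105 := by
    rw [Finset.prod_Icc_succ_top (by norm_num), q3, e4]
    norm_num
  have q5 : ∏ l ∈ Finset.Icc 2 5, p l = 1155 := by
    rw [Finset.prod_Icc_succ_top (by norm_num), q4, e5]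
    norm_num
  have q6 : ∏ l ∈ Finset.Icc 2 6, p l = 15015 := by
    rw [Finset.prod_Icc_succ_top (by norm_num), q5, e6]
    norm_num
  have hf : f 2 = 6 := by
    apply IsLeast.csInf_eq
    constructor
    · refine ⟨by norm_num, ?_⟩
      rw [q6, ArithmeticFunction.sigma_one_apply]
      decide +kernel
    · rintro j ⟨h1, h2⟩
      by_contra hlt
      push Not at hlt
      interval_cases j
      · rw [q2, ArithmeticFunction.sigma_one_apply] at h2
        revert h2
        decide +kernel
      · rw [q3, ArithmeticFunction.sigma_one_apply] at h2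
        revert h2
        decide +kernel
      · rw [q4, ArithmeticFunction.sigma_one_apply] at h2
        revert h2
        decide +kernel
      · rw [q5, ArithmeticFunction.sigma_one_apply] at h2
        revert h2
        decide +kernel
  have hB : B 2 = 373065 := by
    rw [B, A, hf, q6, e6, e7, e8]
  have h2 := (h 2 le_rfl).2.2 19635 (by rw [hB, Nat.mem_properDivisors]; norm_num)
  apply h2
  refine ⟨by norm_num, {6545, 3927, 2805, 1785, 1309, 1155, 935, 595, 561, 17, 1}, ?_, by decide⟩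
  intro x hx
  simp only [Finset.mem_insert, Finset.mem_singleton] at hx
  rw [Nat.mem_properDivisors]
  rcases hx with rfl | rfl | rfl | rfl | rfl | rfl | rfl | rfl | rfl | rfl | rfl <;> norm_num

end Pool.Agent.Results.MP_64ebd5_nt.Counterexample
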